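import Pool.Agent.BEQ.Stmts

/-!
# BEQ, row OSP: openness of the spectral conditions
-/

set_option autoImplicit false

namespace Pool.Agent.BEQ.H8

open Set Filter Topology MeasureTheory
open scoped InnerProductSpace ENNReal
open Pool.Agent Pool.Agent.BE01 Pool.Agent.BEL Pool.Agent.BEH Pool.Agent.BEG Pool.Agent.BEQ

/-- a positive sequence with a positive limit has a positive lower bound -/
theorem osp_low (f : ℕ → ℝ) (c : ℝ) (hc : 0 < c) (hf : ∀ k, 0 < f k)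
    (hl : Tendsto f atTop (𝓝 c)) : ∃ θ : ℝ, 0 < θ ∧ ∀ k, θ ≤ f k := by
  have h1 : ∀ᶠ k in atTop, c / 2 < f k := hl.eventually (lt_mem_nhds (half_lt_self hc))
  obtain ⟨K, hK⟩ := eventually_atTop.1 h1
  have h2 : ∀ K : ℕ, ∃ θ : ℝ, 0 < θ ∧ ∀ k < K, θ ≤ f k := by
    intro K
    induction K with
    | zero => exact ⟨1, one_pos, fun k hk => absurd hk (Nat.not_lt_zero k)⟩
    | succ K ih =>
      obtain ⟨θ, h0, h⟩ := ih
      refine ⟨min θ (f K), lt_min h0 (hf K), fun k hk => ?_⟩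
      rcases Nat.lt_succ_iff_lt_or_eq.1 hk with h' | rfl
      · exact (min_le_left _ _).trans (h k h')
      · exact min_le_right _ _
  obtain ⟨θ, h0, h⟩ := h2 K
  refine ⟨min θ (c / 2), lt_min h0 (half_pos hc), fun k => ?_⟩
  rcases lt_or_ge k K with h' | h'
  · exact (min_le_left _ _).trans (h k h')
  · exact (min_le_right _ _).trans (hK k h').le

/-- row OSP -/
theorem osp (eip : EipStmt) : OspStmt := by
  intro H _ _ _ T v om M hom htop hT hN
  set μ : ℕ → ℝ := fun k => (om k ^ 2)⁻¹ with hμ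
  have hμ0 : ∀ k, 0 < μ k := fun k => inv_pos.2 (pow_pos (hom k) 2)
  have hlim : Tendsto μ atTop (𝓝 0) :=
    tendsto_inv_atTop_zero.comp ((tendsto_pow_atTop two_ne_zero).comp htop)
  -- the gap
  have hgap : ∀ m : ℕ, ∃ θ : ℝ, 0 < θ ∧ ∀ n : ℕ, n < m → Odd n → 3 ≤ n → n ≤ M → ∀ k,
      θ ≤ |μ k - μ 0 / (n : ℝ) ^ 2| := by
    intro m
    induction m with
    | zero => exact ⟨1, one_pos, fun n hn => absurd hn (Nat.not_lt_zero n)⟩
    | succ m ih =>
      obtain ⟨θ, h0, h⟩ := ih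
      by_cases hm : Odd m ∧ 3 ≤ m ∧ m ≤ M
      · obtain ⟨hodd, h3, hM⟩ := hm
        have hm0 : (0 : ℝ) < m := by
          have : 0 < m := by omega
          exact_mod_cast this
        have hc : 0 < μ 0 / (m : ℝ) ^ 2 := div_pos (hμ0 0) (pow_pos hm0 2)
        have hf : ∀ k, 0 < |μ k - μ 0 / (m : ℝ) ^ 2| := by
          intro k
          rw [abs_pos, sub_ne_zero]
          intro he
          apply hN m hodd h3 hM k
          have h1 : om 0 ^ 2 ≠ 0 := (pow_pos (hom 0) 2).ne'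
          have h2 : om k ^ 2 ≠ 0 := (pow_pos (hom k) 2).ne'
          have h3 : (om k ^ 2)⁻¹ = (om 0 ^ 2)⁻¹ / (m : ℝ) ^ 2 := he
          have h4 : (m : ℝ) ^ 2 ≠ 0 := (pow_pos hm0 2).ne'
          rw [eq_div_iff h4, inv_mul_eq_iff_eq_mul₀ h2, ← div_eq_mul_inv, eq_div_iff h1] at h3
          exact h3
        have hl : Tendsto (fun k => |μ k - μ 0 / (m : ℝ) ^ 2|) atTop (𝓝 (μ 0 / (m : ℝ) ^ 2)) := by
          have h1 := (hlim.sub_const (μ 0 / (m : ℝ) ^ 2)).abs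
          rwa [zero_sub, abs_neg, abs_of_pos hc] at h1
        obtain ⟨θ', h0', h'⟩ := osp_low _ _ hc hf hl
        refine ⟨min θ θ', lt_min h0 h0', fun n hn ho hn3 hnM k => ?_⟩
        rcases Nat.lt_succ_iff_lt_or_eq.1 hn with hlt | rfl
        · exact (min_le_left _ _).trans (h n hlt ho hn3 hnM k)
        · exact (min_le_right _ _).trans (h' k)
      · refine ⟨θ, h0, fun n hn ho hn3 hnM k => ?_⟩
        rcases Nat.lt_succ_iff_lt_or_eq.1 hn with hlt | rfl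
        · exact h n hlt ho hn3 hnM k
        · exact absurd ⟨ho, hn3, hnM⟩ hm
  obtain ⟨θ, hθ0, hθ⟩ := hgap (M + 1)
  have ho0 : 0 < om 0 ^ 2 := pow_pos (hom 0) 2
  set η : ℝ := min (θ / 4) (min (μ 0 / (4 * ((M : ℝ) ^ 2 + 1)))
    (1 / (om 0 ^ 2 * (om 0 ^ 2 + 1)))) with hη
  have hM0 : (0 : ℝ) < (M : ℝ) ^ 2 + 1 := by positivity
  have hη0 : 0 < η := lt_min (by positivity) (lt_min (div_pos (hμ0 0) (by positivity))
    (by positivity))
  have hη1 : η ≤ θ / 4 := min_le_left _ _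
  have hη2 : η ≤ μ 0 / (4 * ((M : ℝ) ^ 2 + 1)) := (min_le_right _ _).trans (min_le_left _ _)
  have hη3 : η ≤ 1 / (om 0 ^ 2 * (om 0 ^ 2 + 1)) := (min_le_right _ _).trans (min_le_right _ _)
  refine ⟨η, hη0, ?_⟩
  intro T' v' om' hom' hT' hTT
  set μ' : ℕ → ℝ := fun k => (om' k ^ 2)⁻¹ with hμ'
  have hμ0' : ∀ k, 0 < μ' k := fun k => inv_pos.2 (pow_pos (hom' k) 2)
  obtain ⟨h1, h2⟩ := eip H T T' v v' μ μ' η hT hT' hTT
  have h3 : μ 0 - η ≤ μ' 0 := by linarith [(abs_le.1 h1).2]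
  constructor
  · have h4 : 1 / (om 0 ^ 2 + 1) ≤ μ' 0 := by
      refine le_trans ?_ h3
      have e1 : μ 0 - 1 / (om 0 ^ 2 * (om 0 ^ 2 + 1)) = 1 / (om 0 ^ 2 + 1) := by
        show (om 0 ^ 2)⁻¹ - 1 / (om 0 ^ 2 * (om 0 ^ 2 + 1)) = 1 / (om 0 ^ 2 + 1)
        have hx : om 0 ^ 2 ≠ 0 := ho0.ne'
        have hx1 : om 0 ^ 2 + 1 ≠ 0 := by positivity
        rw [inv_eq_one_div, div_sub_div _ _ hx (mul_ne_zero hx hx1),
          div_eq_div_iff (mul_ne_zero hx (mul_ne_zero hx hx1)) hx1]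
        ring
      rw [← e1]
      linarith
    have h5 : 0 < om' 0 ^ 2 := pow_pos (hom' 0) 2
    have h6 : 1 / (om 0 ^ 2 + 1) ≤ 1 / om' 0 ^ 2 := by
      rw [one_div (om' 0 ^ 2)]
      exact h4
    exact (one_div_le_one_div (by positivity) h5).1 h6
  · intro n ho hn3 hnM k he
    have hn0 : (0 : ℝ) < n := by
      have : 0 < n := by omega
      exact_mod_cast this
    have hn1 : (1 : ℝ) ≤ (n : ℝ) ^ 2 := by
      have : (1 : ℝ) ≤ n := by exact_mod_cast (by omega : 1 ≤ n)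
      nlinarith
    have hnM' : (n : ℝ) ^ 2 ≤ (M : ℝ) ^ 2 :=
      pow_le_pow_left₀ hn0.le (by exact_mod_cast hnM) 2
    have h4 : μ' k = μ' 0 / (n : ℝ) ^ 2 := by
      show (om' k ^ 2)⁻¹ = (om' 0 ^ 2)⁻¹ / (n : ℝ) ^ 2
      have e1 : om' 0 ^ 2 ≠ 0 := (pow_pos (hom' 0) 2).ne'
      rw [← he]
      field_simp
    have h5 : η < μ' k := by
      rw [h4, lt_div_iff₀ (by positivity)]
      have e1 : η * (4 * ((M : ℝ) ^ 2 + 1)) ≤ μ 0 := by
        rwa [le_div_iff₀ (by positivity)] at hη2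
      have e2 : η * (n : ℝ) ^ 2 ≤ η * (M : ℝ) ^ 2 := mul_le_mul_of_nonneg_left hnM' hη0.le
      have e3 : 0 ≤ η * (M : ℝ) ^ 2 := by positivity
      nlinarith
    rcases h2 k with h6 | ⟨j, h6⟩
    · exact absurd h6 (not_le.2 h5)
    · have h7 := hθ n (by omega) ho hn3 hnM j
      have h8 : |μ' 0 / (n : ℝ) ^ 2 - μ 0 / (n : ℝ) ^ 2| ≤ η := by
        rw [← sub_div, abs_div, abs_of_pos (by positivity : (0 : ℝ) < (n : ℝ) ^ 2),
          div_le_iff₀ (by positivity), abs_sub_comm]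
        nlinarith
      rw [h4] at h6
      have h9 : |μ j - μ 0 / (n : ℝ) ^ 2| ≤ η + η :=
        (abs_sub_le _ (μ' 0 / (n : ℝ) ^ 2) _).trans (add_le_add h6 h8)
      linarith

end Pool.Agent.BEQ.H8
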